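import Mathlib
import Pool.Agent.TH407.AR.Defs
import Pool.Agent.H153R4.Pl
set_option autoImplicit false

/-!
# Fourier facts for functions of bounded variation, with a parameter

The truncation lemma `inv_tail` follows the proof of `Pool.Agent.W771.NN.inv_tail`.
-/

namespace Pool.Agent.TH777.VR

open MeasureTheory Set Complex
open scoped ENNReal NNReal Real FourierTransform
open Pool.Agent.TH407.AR

/-- `e^{2πis}` -/
noncomputable def ee (s : ℝ) : ℂ := cexp (2 * Real.pi * I * (s : ℂ))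

lemma ee_norm (s : ℝ) : ‖ee s‖ = 1 := by
  unfold ee
  have : (2 * Real.pi * I * (s : ℂ)) = ((2 * Real.pi * s : ℝ) : ℂ) * I := by
    push_cast
    ring
  rw [this, Complex.norm_exp_ofReal_mul_I]

lemma ee_conj (s : ℝ) : (starRingEnd ℂ) (ee s) = ee (-s) := by
  unfold ee
  rw [← Complex.exp_conj]
  congr 1
  have : (2 * Real.pi * I * (s : ℂ)) = ((2 * Real.pi * s : ℝ) : ℂ) * I := by
    push_cast
    ring
  rw [this, map_mul, Complex.conj_ofReal, Complex.conj_I]
  push_cast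
  ring

lemma ee_cont : Continuous ee := by
  unfold ee
  fun_prop

lemma ee_meas : Measurable ee := ee_cont.measurable

lemma planch1 (g : ℝ → ℂ) (h1 : Integrable g) (h2 : MemLp g 2) :
    ∫⁻ x : ℝ, ‖∫ u, g u * ee (x * u)‖ₑ ^ 2 = ∫⁻ u, ‖g u‖ₑ ^ 2 := by
  have h3 := Pool.Agent.H153R4.plancherel g h1 h2
  have e2 : ∀ ξ : ℝ, 𝓕 g ξ = ∫ u, g u * ee ((-ξ) * u) := by
    intro ξ
    rw [Real.fourier_eq' g ξ]
    congr 1
    ext u
    rw [smul_eq_mul, mul_comm]
    congr 1
    unfold ee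
    congr 1
    simp
    ring
  rw [← h3]
  simp only [e2]
  have h5 := (Measure.measurePreserving_neg (volume : Measure ℝ)).lintegral_comp_emb
    (MeasurableEquiv.neg ℝ).measurableEmbedding (fun x : ℝ => ‖∫ u, g u * ee (x * u)‖ₑ ^ 2)
  exact h5.symm

/-- Fourier transform -/
noncomputable def ft (G : ℝ → ℂ) (η : ℝ) : ℂ := ∫ w, G w * ee (-(η * w))

lemma int_mul_bd {X : Type*} [MeasurableSpace X] {μ : Measure X} {f g : X → ℂ} (hf : Integrable f μ)
    (hg : Measurable g) (C : ℝ) (hb : ∀ x, ‖g x‖ ≤ C) : Integrable (fun x => f x * g x) μ :=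
  hf.mul_bdd (c := C) hg.aestronglyMeasurable (ae_of_all _ hb)

lemma ft_cont {G : ℝ → ℂ} (hG : Integrable G) : Continuous (ft G) := by
  unfold ft
  apply continuous_of_dominated (bound := fun w => ‖G w‖)
  · intro η
    have h1 : Measurable (fun w : ℝ => ee (-(η * w))) :=
      ee_meas.comp ((measurable_id.const_mul η).neg)
    exact hG.1.mul h1.aestronglyMeasurable
  · intro η
    exact ae_of_all _ fun w => by rw [norm_mul, ee_norm, mul_one]
  · exact hG.norm
  · apply ae_of_all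
    intro w
    apply Continuous.mul continuous_const
    exact ee_cont.comp (by fun_prop)

lemma sq_int_of_lint {f : ℝ → ℂ} (hf : MemLp f 2) :
    Integrable (fun x => ‖f x‖ ^ 2) := by
  have := hf.integrable_norm_pow (by norm_num : (2 : ℕ) ≠ 0)
  exact this

lemma lint_sq_eq {f : ℝ → ℂ} (hf : MemLp f 2) :
    ∫⁻ x, ‖f x‖ₑ ^ 2 = ENNReal.ofReal (∫ x, ‖f x‖ ^ 2) := by
  rw [ofReal_integral_eq_lintegral_ofReal (sq_int_of_lint hf) (ae_of_all _ fun x => by positivity)]
  congr 1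
  ext x
  rw [ENNReal.ofReal_pow (norm_nonneg _), ofReal_norm]

lemma memLp2_of {f : ℝ → ℂ} (hm : AEStronglyMeasurable f volume) (h : ∫⁻ x, ‖f x‖ₑ ^ 2 ≠ ∞) :
    MemLp f 2 := by
  refine ⟨hm, ?_⟩
  rw [eLpNorm_lt_top_iff_lintegral_rpow_enorm_lt_top (by norm_num) (by norm_num)]
  simp only [ENNReal.toReal_ofNat, ENNReal.rpow_ofNat]
  exact lt_top_iff_ne_top.mpr h

lemma inv_tail {G : ℝ → ℂ} (hGi : Integrable G) (hG2 : MemLp G 2) (R : ℝ) :
    ∫⁻ v, ‖∫ η in Icc (-R) R, ft G η * ee (v * η)‖ₑ ^ 2 ≤ ∫⁻ v, ‖G v‖ₑ ^ 2 ∧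
    ∫⁻ v, ‖G v - ∫ η in Icc (-R) R, ft G η * ee (v * η)‖ₑ ^ 2 ≤
      ∫⁻ η in (Icc (-R) R)ᶜ, ‖ft G η‖ₑ ^ 2 := by
  have hc := ft_cont hGi
  -- Plancherel for `G`
  have p1 : ∫⁻ η, ‖ft G η‖ₑ ^ 2 = ∫⁻ v, ‖G v‖ₑ ^ 2 := by
    rw [← planch1 G hGi hG2]
    have h5 := (Measure.measurePreserving_neg (volume : Measure ℝ)).lintegral_comp_emb
      (MeasurableEquiv.neg ℝ).measurableEmbedding (fun x : ℝ => ‖∫ u, G u * ee (x * u)‖ₑ ^ 2)
    rw [← h5]
    congr 1
    ext η
    unfold ft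
    congr 3
    ext w
    congr 2
    ring
  have hGfin : ∫⁻ v, ‖G v‖ₑ ^ 2 ≠ ∞ := by
    rw [lint_sq_eq hG2]
    exact ENNReal.ofReal_ne_top
  have hF2 : MemLp (ft G) 2 := memLp2_of hc.aestronglyMeasurable (by rw [p1]; exact hGfin)
  set P : ℝ → ℂ := (Icc (-R) R).indicator (ft G) with hP
  have hPi : Integrable P := by
    rw [hP, integrable_indicator_iff measurableSet_Icc]
    exact hc.integrableOn_Icc
  have hP2 : MemLp P 2 := hF2.indicator measurableSet_Icc
  set GR : ℝ → ℂ := fun v => ∫ η, P η * ee (v * η) with hGR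
  have eGR : ∀ v, ∫ η in Icc (-R) R, ft G η * ee (v * η) = GR v := by
    intro v
    rw [hGR, ← integral_indicator measurableSet_Icc]
    congr 1
    ext η
    simp only [hP]
    by_cases h : η ∈ Icc (-R) R
    · rw [indicator_of_mem h, indicator_of_mem h]
    · rw [indicator_of_notMem h, indicator_of_notMem h, zero_mul]
  have cGR : Continuous GR := by
    have h1 := ft_cont hPi
    have h2 : GR = fun v => ft P (-v) := by
      ext v
      simp only [hGR, ft]
      congr 1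
      ext η
      congr 2
      ring
    rw [h2]
    exact h1.comp continuous_neg
  have p2 : ∫⁻ v, ‖GR v‖ₑ ^ 2 = ∫⁻ η, ‖P η‖ₑ ^ 2 := planch1 P hPi hP2
  refine ⟨?_, ?_⟩
  · simp only [eGR]
    rw [p2, ← p1]
    apply lintegral_mono
    intro η
    simp only [hP]
    by_cases h : η ∈ Icc (-R) R
    · rw [indicator_of_mem h]
    · rw [indicator_of_notMem h]
      simp
  have hGR2 : MemLp GR 2 := memLp2_of cGR.aestronglyMeasurable (by
    rw [p2, lint_sq_eq hP2]
    exact ENNReal.ofReal_ne_top)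
  have bGR : ∀ v, ‖GR v‖ ≤ ∫ η, ‖P η‖ := by
    intro v
    simp only [hGR]
    refine (norm_integral_le_integral_norm _).trans (le_of_eq ?_)
    congr 1
    ext w
    rw [norm_mul, ee_norm, mul_one]
  -- the mixed term
  have p3 : ∫ v, G v * (starRingEnd ℂ) (GR v) = ((∫ η, ‖P η‖ ^ 2 : ℝ) : ℂ) := by
    have hint : Integrable (fun w : ℝ × ℝ => G w.1 * (starRingEnd ℂ) (P w.2) * ee (-(w.2 * w.1)))
        (volume.prod volume) := by
      have hPc : Integrable (fun η => (starRingEnd ℂ) (P η)) := by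
        refine hPi.norm.mono (Complex.continuous_conj.comp_aestronglyMeasurable hPi.1)
          (ae_of_all _ fun u => by simp)
      have h1 := hGi.mul_prod hPc
      apply int_mul_bd h1 _ 1
      · intro w
        rw [ee_norm]
      · exact ee_meas.comp ((measurable_snd.mul measurable_fst).neg)
    have e1 : ∀ v, G v * (starRingEnd ℂ) (GR v) = ∫ η, G v * (starRingEnd ℂ) (P η) * ee (-(η * v)) := by
      intro v
      simp only [hGR]
      rw [← integral_conj, ← integral_const_mul]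
      congr 1
      ext η
      rw [map_mul, ee_conj, mul_comm v η]
      ring
    simp only [e1]
    rw [integral_integral_swap hint, ← integral_complex_ofReal]
    congr 1
    ext η
    have e2 : ∀ v, G v * (starRingEnd ℂ) (P η) * ee (-(η * v)) =
        (starRingEnd ℂ) (P η) * (G v * ee (-(η * v))) := by
      intro v; ring
    simp only [e2]
    rw [integral_const_mul]
    change (starRingEnd ℂ) (P η) * ft G η = _
    simp only [hP]
    by_cases h : η ∈ Icc (-R) R
    · rw [indicator_of_mem h, mul_comm, Complex.mul_conj, Complex.normSq_eq_norm_sq]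
    · rw [indicator_of_notMem h]
      simp
  have hdiff : MemLp (fun v => G v - GR v) 2 := hG2.sub hGR2
  have i1 := sq_int_of_lint hG2
  have i2 := sq_int_of_lint hGR2
  have i3 : Integrable (fun v => G v * (starRingEnd ℂ) (GR v)) := by
    apply int_mul_bd hGi _ (∫ η, ‖P η‖)
    · intro v
      rw [RCLike.norm_conj]
      exact bGR v
    · exact Complex.continuous_conj.measurable.comp cGR.measurable
  have key : ∫ v, ‖G v - GR v‖ ^ 2 = (∫ v, ‖G v‖ ^ 2) - 2 * (∫ η, ‖P η‖ ^ 2) + ∫ v, ‖GR v‖ ^ 2 := by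
    have e1 : ∀ v, ‖G v - GR v‖ ^ 2 = ‖G v‖ ^ 2 - 2 * (G v * (starRingEnd ℂ) (GR v)).re + ‖GR v‖ ^ 2 := by
      intro v
      rw [← Complex.normSq_eq_norm_sq, ← Complex.normSq_eq_norm_sq, ← Complex.normSq_eq_norm_sq,
        Complex.normSq_sub]
      ring
    simp only [e1]
    have i4 : Integrable (fun v => 2 * (G v * (starRingEnd ℂ) (GR v)).re) := i3.re.const_mul 2
    have i5 : Integrable (fun v => ‖G v‖ ^ 2 - 2 * (G v * (starRingEnd ℂ) (GR v)).re) := i1.sub i4
    rw [integral_add i5 i2, integral_sub i1 i4, integral_const_mul]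
    have : ∫ v, (G v * (starRingEnd ℂ) (GR v)).re = ∫ η, ‖P η‖ ^ 2 := by
      have h := integral_re i3
      have h' : ∫ v, (G v * (starRingEnd ℂ) (GR v)).re = (∫ v, G v * (starRingEnd ℂ) (GR v)).re := h
      rw [h', p3, Complex.ofReal_re]
    rw [this]
  have q2 : ∫ v, ‖GR v‖ ^ 2 = ∫ η, ‖P η‖ ^ 2 := by
    rw [lint_sq_eq hGR2, lint_sq_eq hP2] at p2
    rwa [ENNReal.ofReal_eq_ofReal_iff (integral_nonneg fun _ => by positivity)
      (integral_nonneg fun _ => by positivity)] at p2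
  have q1 : ∫ v, ‖G v‖ ^ 2 = ∫ η, ‖ft G η‖ ^ 2 := by
    rw [lint_sq_eq hF2, lint_sq_eq hG2] at p1
    rw [ENNReal.ofReal_eq_ofReal_iff (integral_nonneg fun _ => by positivity)
      (integral_nonneg fun _ => by positivity)] at p1
    exact p1.symm
  have q3 : ∫ η, ‖P η‖ ^ 2 = ∫ η in Icc (-R) R, ‖ft G η‖ ^ 2 := by
    rw [← integral_indicator measurableSet_Icc]
    congr 1
    ext η
    simp only [hP]
    by_cases h : η ∈ Icc (-R) R
    · rw [indicator_of_mem h, indicator_of_mem h]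
    · rw [indicator_of_notMem h, indicator_of_notMem h]
      simp
  have iF := sq_int_of_lint hF2
  have q4 := integral_add_compl (s := Icc (-R) R) measurableSet_Icc iF
  simp only [eGR]
  rw [lint_sq_eq hdiff, key, q2, q1]
  have e5 : ∫⁻ η in (Icc (-R) R)ᶜ, ‖ft G η‖ₑ ^ 2 =
      ENNReal.ofReal (∫ η in (Icc (-R) R)ᶜ, ‖ft G η‖ ^ 2) := by
    rw [ofReal_integral_eq_lintegral_ofReal iF.integrableOn (ae_of_all _ fun x => by positivity)]
    congr 1
    ext x
    rw [ENNReal.ofReal_pow (norm_nonneg _), ofReal_norm]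
  rw [e5]
  apply ENNReal.ofReal_le_ofReal
  rw [q3]
  linarith

/-! ### The functions `a s θ` -/

variable {a : ℝ → ℝ → ℂ} {M : ℝ → ℝ≥0}

lemma adm_meas (hA : Adm a M) (θ : ℝ) : Measurable (fun s => a s θ) :=
  hA.ma.comp (measurable_id.prodMk measurable_const)

lemma adm_le (hA : Adm a M) (θ s : ℝ) : ‖a s θ‖ ≤ M θ := by
  have := hA.bd s θ
  rw [← ofReal_norm, ENNReal.ofReal_le_coe] at this
  exact_mod_cast this

lemma adm_pow (hA : Adm a M) (θ : ℝ) (n : ℕ) (hn : n ≠ 0) :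
    ∫⁻ s, ‖a s θ‖ₑ ^ n ≤ (M θ : ℝ≥0∞) ^ n := by
  calc ∫⁻ s, ‖a s θ‖ₑ ^ n ≤ ∫⁻ s, (Icc (0 : ℝ) 1).indicator (fun _ => (M θ : ℝ≥0∞) ^ n) s := by
        apply lintegral_mono
        intro s
        by_cases h : s ∈ Icc (0 : ℝ) 1
        · rw [indicator_of_mem h]
          exact pow_le_pow_left' (hA.bd s θ) n
        · rw [indicator_of_notMem h]
          change ‖a s θ‖ₑ ^ n ≤ 0
          rw [hA.supp s θ h]
          simp [hn]
    _ = (M θ : ℝ≥0∞) ^ n := by
        rw [lintegral_indicator measurableSet_Icc, setLIntegral_const]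
        simp

lemma adm_int (hA : Adm a M) (θ : ℝ) : Integrable (fun s => a s θ) := by
  refine ⟨(adm_meas hA θ).aestronglyMeasurable, ?_⟩
  rw [HasFiniteIntegral]
  have := adm_pow hA θ 1 one_ne_zero
  simp only [pow_one] at this
  exact this.trans_lt ENNReal.coe_lt_top

lemma adm_L2 (hA : Adm a M) (θ : ℝ) : MemLp (fun s => a s θ) 2 :=
  memLp2_of (adm_meas hA θ).aestronglyMeasurable
    ((adm_pow hA θ 2 two_ne_zero).trans_lt (by
      exact ENNReal.pow_lt_top ENNReal.coe_lt_top)).ne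

lemma phase_norm (x : ℝ) : ‖cexp (-(I * (x : ℂ)))‖ = 1 := by
  have : (-(I * (x : ℂ))) = ((-x : ℝ) : ℂ) * I := by
    push_cast
    ring
  rw [this, Complex.norm_exp_ofReal_mul_I]

lemma phase_enorm (x : ℝ) : ‖cexp (-(I * (x : ℂ)))‖ₑ = 1 := by
  rw [← ofReal_norm, phase_norm, ENNReal.ofReal_one]

lemma ah_eq_ft (θ ξ : ℝ) : ah a (2 * π * ξ) θ = ft (fun s => a s θ) ξ := by
  unfold ah ft ee
  congr 1
  ext s
  rw [mul_comm]
  congr 2
  push_cast
  ring

lemma ah_le1 (hA : Adm a M) (κ θ : ℝ) : ‖ah a κ θ‖ₑ ≤ M θ := by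
  unfold ah
  refine (enorm_integral_le_lintegral_enorm _).trans ?_
  have := adm_pow hA θ 1 one_ne_zero
  simp only [pow_one] at this
  refine le_trans (le_of_eq ?_) this
  congr 1
  ext s
  rw [enorm_mul, phase_enorm, one_mul]

lemma phase_meas (κ : ℝ) : Measurable (fun s : ℝ => cexp (-(I * ((κ * s : ℝ) : ℂ)))) := by
  have : Continuous (fun s : ℝ => cexp (-(I * ((κ * s : ℝ) : ℂ)))) := by fun_prop
  exact this.measurable

lemma ah_int (hA : Adm a M) (κ θ h : ℝ) :
    Integrable (fun s : ℝ => cexp (-(I * ((κ * s : ℝ) : ℂ))) * a (s + h) θ) := by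
  have h1 : Integrable (fun s : ℝ => a (s + h) θ) := (adm_int hA θ).comp_add_right h
  have := int_mul_bd h1 (phase_meas κ) 1 (fun s => (phase_norm _).le)
  simpa only [mul_comm] using this

lemma ah_le2 (hA : Adm a M) {κ : ℝ} (hκ : κ ≠ 0) (θ : ℝ) :
    ‖2 * ah a κ θ‖ₑ ≤ M θ * ENNReal.ofReal (π / |κ|) := by
  have h1 : ah a κ θ = -∫ s : ℝ, cexp (-(I * ((κ * s : ℝ) : ℂ))) * a (s + π / κ) θ := by
    unfold ah
    rw [← integral_add_right_eq_self _ (π / κ), ← integral_neg]
    congr 1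
    ext s
    have : cexp (-(I * ((κ * (s + π / κ) : ℝ) : ℂ))) = -cexp (-(I * ((κ * s : ℝ) : ℂ))) := by
      have e1 : (-(I * ((κ * (s + π / κ) : ℝ) : ℂ))) =
          -(I * ((κ * s : ℝ) : ℂ)) - (π : ℂ) * I := by
        rw [mul_add, mul_div_cancel₀ _ hκ]
        push_cast
        ring
      rw [e1, Complex.exp_sub, Complex.exp_pi_mul_I, div_neg, div_one]
    rw [this]
    ring
  have h2 : 2 * ah a κ θ = -∫ s : ℝ, cexp (-(I * ((κ * s : ℝ) : ℂ))) *
      (a (s + π / κ) θ - a s θ) := by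
    have i1 := ah_int hA κ θ (π / κ)
    have i2 := ah_int hA κ θ 0
    simp only [add_zero] at i2
    have e1 : ∫ s : ℝ, cexp (-(I * ((κ * s : ℝ) : ℂ))) * (a (s + π / κ) θ - a s θ) =
        (∫ s : ℝ, cexp (-(I * ((κ * s : ℝ) : ℂ))) * a (s + π / κ) θ) -
          ∫ s : ℝ, cexp (-(I * ((κ * s : ℝ) : ℂ))) * a s θ := by
      rw [← integral_sub i1 i2]
      congr 1
      ext s
      ring
    rw [e1]
    have e2 : ∫ s : ℝ, cexp (-(I * ((κ * s : ℝ) : ℂ))) * a s θ = ah a κ θ := rfl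
    rw [e2, two_mul]
    nth_rewrite 1 [h1]
    ring
  rw [h2, enorm_neg]
  refine (enorm_integral_le_lintegral_enorm _).trans ?_
  have h3 := hA.modc (π / κ) θ
  rw [abs_div, abs_of_pos Real.pi_pos] at h3
  refine le_trans (le_of_eq ?_) h3
  congr 1
  ext s
  rw [enorm_mul, phase_enorm, one_mul]

lemma ah_le (hA : Adm a M) (κ θ : ℝ) : ‖ah a κ θ‖ ≤ M θ * (3 / (1 + |κ|)) := by
  have h1 : ‖ah a κ θ‖ ≤ M θ := by
    have := ah_le1 hA κ θ
    rw [← ofReal_norm, ENNReal.ofReal_le_coe] at this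
    exact_mod_cast this
  have hM : (0 : ℝ) ≤ M θ := NNReal.coe_nonneg _
  have hp : 0 < 1 + |κ| := by positivity
  by_cases hk : |κ| ≤ 2
  · refine h1.trans ?_
    have : 1 ≤ 3 / (1 + |κ|) := by
      rw [le_div_iff₀ hp]
      linarith
    nlinarith
  · push Not at hk
    have hκ : κ ≠ 0 := by
      rintro rfl
      simp at hk
      linarith
    have h2 := ah_le2 hA hκ θ
    have hq : 0 ≤ π / |κ| := by positivity
    rw [← ofReal_norm, ← ENNReal.ofReal_coe_nnreal, ← ENNReal.ofReal_mul hM,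
      ENNReal.ofReal_le_ofReal_iff (by positivity), norm_mul, Complex.norm_ofNat] at h2
    have h3 : π / |κ| ≤ 2 * (3 / (1 + |κ|)) := by
      rw [← mul_div_assoc, div_le_div_iff₀ (by linarith) hp]
      have := Real.pi_lt_d2
      nlinarith
    nlinarith

theorem fourier_facts : FourierFacts := by
  intro a M hA
  have m1 : Measurable (Function.uncurry (ah a)) := by
    have hm : StronglyMeasurable (fun p : (ℝ × ℝ) × ℝ =>
        cexp (-(I * ((p.1.1 * p.2 : ℝ) : ℂ))) * a p.2 p.1.2) := by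
      apply Measurable.stronglyMeasurable
      apply Measurable.mul
      · fun_prop
      · exact hA.ma.comp (measurable_snd.prodMk (measurable_snd.comp measurable_fst))
    have := hm.integral_prod_right' (ν := (volume : Measure ℝ))
    exact this.measurable
  refine ⟨m1, ?_, ?_⟩
  · intro κ θ
    have h := ah_le hA κ θ
    have hM : (0 : ℝ) ≤ M θ := NNReal.coe_nonneg _
    rw [← ofReal_norm, ← ENNReal.ofReal_coe_nnreal, ← ENNReal.ofReal_mul hM]
    exact ENNReal.ofReal_le_ofReal h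
  intro T hT
  have m2 : Measurable (Function.uncurry (aT a T)) := by
    have hm : StronglyMeasurable (fun p : (ℝ × ℝ) × ℝ =>
        cexp (I * ((p.2 * p.1.1 : ℝ) : ℂ)) * ah a p.2 p.1.2) := by
      apply Measurable.stronglyMeasurable
      apply Measurable.mul
      · fun_prop
      · exact m1.comp (measurable_snd.prodMk (measurable_snd.comp measurable_fst))
    have := hm.integral_prod_right' (ν := (volume : Measure ℝ).restrict (Icc (-(T / 2)) (T / 2)))
    exact this.measurable.const_mul _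
  have hpi := Real.pi_pos
  set R : ℝ := T / (4 * π) with hR
  have hRpos : 0 < R := by positivity
  have key : ∀ θ s, aT a T s θ = ∫ η in Icc (-R) R, ft (fun s => a s θ) η * ee (s * η) := by
    intro θ s
    unfold aT
    rw [← integral_indicator measurableSet_Icc, ← integral_indicator measurableSet_Icc]
    have h1 := Measure.integral_comp_mul_left ((Icc (-(T / 2)) (T / 2)).indicator
      (fun κ => cexp (I * ((κ * s : ℝ) : ℂ)) * ah a κ θ)) (2 * π)
    have h2 : ((2 * π : ℝ) : ℂ)⁻¹ * ∫ κ, (Icc (-(T / 2)) (T / 2)).indicator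
        (fun κ => cexp (I * ((κ * s : ℝ) : ℂ)) * ah a κ θ) κ =
        |(2 * π)⁻¹| • ∫ κ, (Icc (-(T / 2)) (T / 2)).indicator
        (fun κ => cexp (I * ((κ * s : ℝ) : ℂ)) * ah a κ θ) κ := by
      rw [abs_of_pos (by positivity), Complex.real_smul]
      push_cast
      rfl
    rw [h2, ← h1]
    congr 1
    ext η
    have hiff : 2 * π * η ∈ Icc (-(T / 2)) (T / 2) ↔ η ∈ Icc (-R) R := by
      have hT2 : T / 2 = 2 * π * R := by
        rw [hR]
        field_simp
        ring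
      have h2p : 0 < 2 * π := by positivity
      rw [mem_Icc, mem_Icc, hT2, ← mul_neg]
      constructor
      · rintro ⟨h1, h2⟩
        exact ⟨le_of_mul_le_mul_left h1 h2p, le_of_mul_le_mul_left h2 h2p⟩
      · rintro ⟨h1, h2⟩
        exact ⟨mul_le_mul_of_nonneg_left h1 h2p.le, mul_le_mul_of_nonneg_left h2 h2p.le⟩
    by_cases h : η ∈ Icc (-R) R
    · rw [indicator_of_mem h, indicator_of_mem (hiff.2 h), ah_eq_ft, mul_comm]
      congr 1
      unfold ee
      congr 1
      push_cast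
      ring
    · rw [indicator_of_notMem h, indicator_of_notMem (fun h' => h (hiff.1 h'))]
  refine ⟨m2, ?_, ?_⟩
  · intro θ
    simp only [key]
    exact (inv_tail (adm_int hA θ) (adm_L2 hA θ) R).1.trans (adm_pow hA θ 2 two_ne_zero)
  · intro θ
    simp only [key]
    refine (inv_tail (adm_int hA θ) (adm_L2 hA θ) R).2.trans ?_
    have hM : (0 : ℝ) ≤ M θ := NNReal.coe_nonneg _
    -- the tail
    have hb : ∀ η ∈ (Icc (-R) R)ᶜ, ‖ft (fun s => a s θ) η‖ₑ ^ 2 ≤
        ENNReal.ofReal ((M θ) ^ 2 * (9 / (4 * π ^ 2)) * |η| ^ (-2 : ℝ)) := by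
      intro η hη
      have hη' : R < |η| := by
        rw [lt_abs]
        by_contra hcon
        push Not at hcon
        apply hη
        rw [mem_Icc]
        constructor <;> linarith [hcon.1, hcon.2]
      have h0 : 0 < |η| := hRpos.trans hη'
      have h1 := ah_le hA (2 * π * η) θ
      rw [ah_eq_ft, abs_mul, abs_of_pos (by positivity : (0 : ℝ) < 2 * π)] at h1
      have h2 : ‖ft (fun s => a s θ) η‖ ≤ M θ * (3 / (2 * π * |η|)) := by
        refine h1.trans (mul_le_mul_of_nonneg_left ?_ hM)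
        apply div_le_div_of_nonneg_left (by norm_num) (by positivity)
        linarith
      rw [← ofReal_norm, ← ENNReal.ofReal_pow (norm_nonneg _)]
      apply ENNReal.ofReal_le_ofReal
      refine (pow_le_pow_left₀ (norm_nonneg _) h2 2).trans (le_of_eq ?_)
      rw [Real.rpow_neg (abs_nonneg _)]
      have : |η| ^ (2 : ℝ) = |η| ^ 2 := by
        norm_cast
      rw [this]
      field_simp
      ring
    have hsub : ∫⁻ η in (Icc (-R) R)ᶜ, ‖ft (fun s => a s θ) η‖ₑ ^ 2 ≤
        ∫⁻ η in (Icc (-R) R)ᶜ, ENNReal.ofReal ((M θ) ^ 2 * (9 / (4 * π ^ 2)) * |η| ^ (-2 : ℝ)) :=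
      setLIntegral_mono' measurableSet_Icc.compl hb
    refine hsub.trans ?_
    have hdec : (Icc (-R) R)ᶜ ⊆ Iio (-R) ∪ Ioi R := by
      intro x hx
      by_contra hcon
      rw [mem_union, mem_Iio, mem_Ioi] at hcon
      push Not at hcon
      exact hx ⟨hcon.1, hcon.2⟩
    refine (lintegral_mono_set hdec).trans ((lintegral_union_le _ _ _).trans ?_)
    have i1 : ∫⁻ η in Ioi R, ENNReal.ofReal ((M θ) ^ 2 * (9 / (4 * π ^ 2)) * |η| ^ (-2 : ℝ)) =
        ENNReal.ofReal ((M θ) ^ 2 * (9 / (4 * π ^ 2)) * R⁻¹) := by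
      have hi := integrableOn_Ioi_rpow_of_lt (by norm_num : (-2 : ℝ) < -1) hRpos
      have hv := integral_Ioi_rpow_of_lt (by norm_num : (-2 : ℝ) < -1) hRpos
      have hi' : IntegrableOn (fun η : ℝ => (M θ : ℝ) ^ 2 * (9 / (4 * π ^ 2)) * |η| ^ (-2 : ℝ))
          (Ioi R) := by
        have hi2 : IntegrableOn (fun η : ℝ => (M θ : ℝ) ^ 2 * (9 / (4 * π ^ 2)) * η ^ (-2 : ℝ))
          (Ioi R) := hi.const_mul ((M θ : ℝ) ^ 2 * (9 / (4 * π ^ 2)))
        refine hi2.congr_fun ?_ measurableSet_Ioi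
        intro η hη
        simp only
        rw [abs_of_pos (hRpos.trans hη)]
      rw [← ofReal_integral_eq_lintegral_ofReal hi' (ae_of_all _ fun x => by positivity)]
      congr 1
      rw [integral_const_mul]
      congr 1
      have : ∫ η in Ioi R, |η| ^ (-2 : ℝ) = ∫ η in Ioi R, η ^ (-2 : ℝ) := by
        apply setIntegral_congr_fun measurableSet_Ioi
        intro η hη
        simp only
        rw [abs_of_pos (hRpos.trans hη)]
      rw [this, hv]
      norm_num
      rw [Real.rpow_neg_one]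
    have i2 : ∫⁻ η in Iio (-R), ENNReal.ofReal ((M θ) ^ 2 * (9 / (4 * π ^ 2)) * |η| ^ (-2 : ℝ)) =
        ∫⁻ η in Ioi R, ENNReal.ofReal ((M θ) ^ 2 * (9 / (4 * π ^ 2)) * |η| ^ (-2 : ℝ)) := by
      have h5 := (Measure.measurePreserving_neg (volume : Measure ℝ)).setLIntegral_comp_preimage_emb
        (MeasurableEquiv.neg ℝ).measurableEmbedding
        (fun η : ℝ => ENNReal.ofReal ((M θ) ^ 2 * (9 / (4 * π ^ 2)) * |η| ^ (-2 : ℝ))) (Ioi R)
      rw [← h5]
      have hpre : Neg.neg ⁻¹' (Ioi R) = Iio (-R) := by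
        ext x
        simp only [mem_preimage, mem_Ioi, mem_Iio]
        constructor <;> intro h <;> linarith
      rw [hpre]
      simp only [abs_neg]
    have e1 : (M θ : ℝ≥0∞) ^ 2 * ENNReal.ofReal (6 / T) =
        ENNReal.ofReal ((M θ : ℝ) ^ 2 * (6 / T)) := by
      rw [ENNReal.ofReal_mul (by positivity), ENNReal.ofReal_pow hM, ENNReal.ofReal_coe_nnreal]
    have e2 : ENNReal.ofReal ((M θ : ℝ) ^ 2 * (9 / (4 * π ^ 2)) * R⁻¹) +
        ENNReal.ofReal ((M θ : ℝ) ^ 2 * (9 / (4 * π ^ 2)) * R⁻¹) =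
        ENNReal.ofReal (2 * ((M θ : ℝ) ^ 2 * (9 / (4 * π ^ 2)) * R⁻¹)) := by
      rw [← ENNReal.ofReal_add (by positivity) (by positivity), two_mul]
    rw [i2, i1, e1, e2]
    apply ENNReal.ofReal_le_ofReal
    have h6 : 2 * ((M θ : ℝ) ^ 2 * (9 / (4 * π ^ 2)) * R⁻¹) = (M θ : ℝ) ^ 2 * (18 / π / T) := by
      rw [hR]
      field_simp
      ring
    rw [h6]
    apply mul_le_mul_of_nonneg_left _ (by positivity)
    apply div_le_div_of_nonneg_right _ hT.le
    rw [div_le_iff₀ hpi]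
    have := Real.pi_gt_three
    linarith

end Pool.Agent.TH777.VR
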